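import Pool.Agent.P8H81.LP.Defs

/-! Project LP, tasks KHAS and FIN. -/

set_option autoImplicit false

open Filter Finset

namespace Pool.Agent.P8H57.LP

open Pool.Agent.P8H81.LP

theorem TT_mono {f h : (Fin 2 → ℤ) → ℝ} (hfh : ∀ y, f y ≤ h y) (z : Fin 2 → ℤ) :
    TT f z ≤ TT h z := by
  unfold TT
  refine mul_le_mul_of_nonneg_left ?_ (by norm_num)
  exact Finset.sum_le_sum fun e _ => Finset.sum_le_sum fun e' _ => hfh _

theorem TT_lin (s f h : (Fin 2 → ℤ) → ℝ) (z : Fin 2 → ℤ)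
    (hf : ∀ y, f y = 1 + 2 * s y + 2 * h y) :
    TT f z = 1 + 2 * TT s z + 2 * TT h z := by
  unfold TT
  rw [show (∑ e : Fin 2 × Bool, ∑ e' : Fin 2 × Bool, f (z + stp e - stp e')) =
    16 + 2 * (∑ e : Fin 2 × Bool, ∑ e' : Fin 2 × Bool, s (z + stp e - stp e')) +
      2 * (∑ e : Fin 2 × Bool, ∑ e' : Fin 2 × Bool, h (z + stp e - stp e')) from ?_]
  · ring
  · simp only [hf, Finset.sum_add_distrib, Finset.mul_sum, Finset.sum_const, Finset.card_univ,
      Fintype.card_prod, Fintype.card_fin, Fintype.card_bool, smul_eq_mul, nsmul_eq_mul]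
    norm_num

theorem TT_sum (n : ℕ) (F : ℕ → (Fin 2 → ℤ) → ℝ) (z : Fin 2 → ℤ) :
    TT (fun y => ∑ m ∈ range n, F m y) z = ∑ m ∈ range n, TT (F m) z := by
  unfold TT
  rw [← Finset.mul_sum (range n)]
  congr 1
  rw [Finset.sum_comm (s := range n)]
  refine Finset.sum_congr rfl fun e _ => ?_
  exact Finset.sum_comm

theorem icc (n : ℕ) (F : ℕ → ℝ) : ∑ m ∈ Icc 1 n, F m = ∑ m ∈ range n, F (m + 1) := by
  induction n with
  | zero => simp
  | succ n ih => rw [Finset.sum_Icc_succ_top (by omega), ih, Finset.sum_range_succ]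

theorem iter_nonneg {g : (Fin 2 → ℤ) → ℝ} (hg : ∀ y, 0 ≤ g y) (m : ℕ) :
    ∀ z, 0 ≤ TT^[m] g z := by
  induction m with
  | zero => exact hg
  | succ m ih =>
    intro z
    rw [Function.iterate_succ_apply']
    unfold TT
    exact mul_nonneg (by norm_num)
      (Finset.sum_nonneg fun e _ => Finset.sum_nonneg fun e' _ => ih _)

theorem taskKhas : TaskKhas := by
  intro g u N hg h0 hu hs
  have key : ∀ n ≤ N, ∀ z, u n z ≤ 1 + 2 * ∑ m ∈ Icc 1 n, TT^[m] g z := by
    intro n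
    induction n with
    | zero =>
      intro _ z
      rw [h0]
      simp
    | succ n ih =>
      intro hn z
      have ih' := ih (by omega)
      have h2 : ∀ y, u n y ≤ 2 := by
        intro y
        have h3 : ∑ m ∈ Icc 1 n, TT^[m] g y ≤ ∑ m ∈ Icc 1 N, TT^[m] g y := by
          refine Finset.sum_le_sum_of_subset_of_nonneg ?_ ?_
          · exact Finset.Icc_subset_Icc_right (by omega)
          · intro m _ _
            exact iter_nonneg hg m y
        have h4 := ih' y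
        have h5 := hs y
        linarith
      rw [hu]
      have h6 : TT (fun y => (1 + g y) * u n y) z ≤
          TT (fun y => 1 + 2 * (∑ m ∈ range n, TT^[m + 1] g y) + 2 * g y) z := by
        refine TT_mono (fun y => ?_) z
        have h7 := ih' y
        rw [icc] at h7
        have h8 := mul_le_mul_of_nonneg_left (h2 y) (hg y)
        have h9 : (1 + g y) * u n y = u n y + g y * u n y := by ring
        rw [h9]
        linarith
      refine h6.trans (le_of_eq ?_)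
      rw [TT_lin (fun y => ∑ m ∈ range n, TT^[m + 1] g y) _ g z (fun y => rfl),
        TT_sum n (fun m => TT^[m + 1] g) z, icc, Finset.sum_range_succ']
      have h10 : ∀ m, TT (TT^[m + 1] g) z = TT^[m + 1 + 1] g z := by
        intro m
        rw [Function.iterate_succ_apply' TT (m + 1) g]
      simp only [h10]
      have h11 : TT^[0 + 1] g z = TT g z := rfl
      rw [h11]
      ring
  intro n hn z
  have h3 : ∑ m ∈ Icc 1 n, TT^[m] g z ≤ ∑ m ∈ Icc 1 N, TT^[m] g z := by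
    refine Finset.sum_le_sum_of_subset_of_nonneg ?_ ?_
    · exact Finset.Icc_subset_Icc_right hn
    · intro m _ _
      exact iter_nonneg hg m z
  have h4 := key n hn z
  have h5 := hs z
  linarith

theorem num (C : ℝ) (hC : 0 < C) (L : ℝ) (hL : 4 * (1 + √(8 * C)) ^ 2 + 6 ≤ L) :
    ∃ N : ℕ, 1 ≤ N ∧ Real.log (2 + N) ≤ L ∧
      (Real.log 2 + √(8 * C * N)) / (N : ℝ) ≤ Real.exp (-(L / 4)) := by
  have hB : 0 ≤ √(8 * C) := Real.sqrt_nonneg _
  have hB1 : 1 ≤ (1 + √(8 * C)) ^ 2 := by nlinarith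
  have hL6 : 6 ≤ L := by linarith
  have he : L + 1 ≤ Real.exp L := Real.add_one_le_exp L
  have he2 : L / 2 + 1 ≤ Real.exp (L / 2) := Real.add_one_le_exp _
  have hfl : (⌊Real.exp L⌋₊ : ℝ) ≤ Real.exp L := Nat.floor_le (Real.exp_pos _).le
  have hfl2 : Real.exp L < ⌊Real.exp L⌋₊ + 1 := Nat.lt_floor_add_one _
  have h7 : 7 ≤ ⌊Real.exp L⌋₊ := Nat.le_floor (by push_cast; linarith)
  obtain ⟨N, hN⟩ : ∃ N, ⌊Real.exp L⌋₊ = N + 2 := ⟨⌊Real.exp L⌋₊ - 2, by omega⟩
  have hN1 : 1 ≤ N := by omega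
  have hNR : (1 : ℝ) ≤ N := by exact_mod_cast hN1
  rw [hN] at hfl hfl2
  push_cast at hfl hfl2
  have hNlow : Real.exp L / 2 ≤ N := by linarith
  refine ⟨N, hN1, ?_, ?_⟩
  · rw [Real.log_le_iff_le_exp (by linarith)]
    linarith
  · have hs : √(8 * C * N) = √(8 * C) * √N := Real.sqrt_mul (by positivity) _
    have hsN : 1 ≤ √(N : ℝ) := by
      rw [Real.one_le_sqrt]
      exact hNR
    have hss : √(N : ℝ) * √(N : ℝ) = N := Real.mul_self_sqrt (by linarith)
    have hlog2 : Real.log 2 ≤ 1 := by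
      have := Real.log_two_lt_d9
      linarith
    have h1 : Real.log 2 + √(8 * C * N) ≤ (1 + √(8 * C)) * √(N : ℝ) := by
      rw [hs]
      nlinarith
    have hee : Real.exp (L / 4) * Real.exp (L / 4) = Real.exp (L / 2) := by
      rw [← Real.exp_add]
      congr 1
      ring
    have hee2 : Real.exp (L / 2) * Real.exp (L / 2) = Real.exp L := by
      rw [← Real.exp_add]
      congr 1
      ring
    have h2 : (1 + √(8 * C)) * Real.exp (L / 4) ≤ √(N : ℝ) := by
      apply Real.le_sqrt_of_sq_le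
      have h3 : ((1 + √(8 * C)) * Real.exp (L / 4)) ^ 2 =
          (1 + √(8 * C)) ^ 2 * Real.exp (L / 2) := by
        rw [mul_pow, ← hee]
        ring
      rw [h3]
      have h4 : 2 * (1 + √(8 * C)) ^ 2 ≤ Real.exp (L / 2) := by linarith
      have h5 : 0 < Real.exp (L / 2) := Real.exp_pos _
      nlinarith
    have h6 : (1 + √(8 * C)) ≤ √(N : ℝ) * Real.exp (-(L / 4)) := by
      rw [Real.exp_neg, ← div_eq_mul_inv, le_div_iff₀ (Real.exp_pos _)]
      exact h2
    rw [div_le_iff₀ (by linarith)]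
    calc Real.log 2 + √(8 * C * N) ≤ (1 + √(8 * C)) * √(N : ℝ) := h1
      _ ≤ (√(N : ℝ) * Real.exp (-(L / 4))) * √(N : ℝ) :=
          mul_le_mul_of_nonneg_right h6 (by linarith)
      _ = Real.exp (-(L / 4)) * (√(N : ℝ) * √(N : ℝ)) := by ring
      _ = Real.exp (-(L / 4)) * N := by rw [hss]

theorem taskFin : TaskFin := by
  intro a K C ha hK hC
  have ha2 : 0 < a + 2 := by linarith
  have hD : 0 < K ^ (-(1 / (a + 2))) / 4 := by positivity
  obtain ⟨D, hDdef⟩ : ∃ D, D = K ^ (-(1 / (a + 2))) / 4 := ⟨_, rfl⟩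
  rw [← hDdef] at hD
  obtain ⟨c, hc⟩ : ∃ c, c = D ^ ((a + 2) / 2) := ⟨_, rfl⟩
  have hc0 : 0 < c := by rw [hc]; positivity
  have htend : Tendsto (fun β : ℝ => (c / β) ^ (2 / (a + 2))) (nhdsWithin 0 (Set.Ioi 0)) atTop := by
    have h0 : Tendsto (fun β : ℝ => c / β) (nhdsWithin 0 (Set.Ioi 0)) atTop := by
      simpa only [div_eq_mul_inv] using
        (tendsto_inv_nhdsGT_zero (𝕜 := ℝ)).const_mul_atTop hc0
    exact (tendsto_rpow_atTop (show 0 < 2 / (a + 2) by positivity)).comp h0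
  have hev := htend.eventually (eventually_ge_atTop ((4 * (1 + √(8 * C)) ^ 2 + 6) / 4))
  obtain ⟨b, hb, hbs⟩ := mem_nhdsGT_iff_exists_Ioo_subset.1 hev
  have hb' : 0 < b := hb
  refine ⟨c, min b 1, hc0, lt_min hb' one_pos, min_le_right _ _, ?_⟩
  intro β hβ hβb
  have hmem : β ∈ Set.Ioo 0 b := ⟨hβ, hβb.trans_le (min_le_left _ _)⟩
  have hlarge : (4 * (1 + √(8 * C)) ^ 2 + 6) / 4 ≤ (c / β) ^ (2 / (a + 2)) := hbs hmem
  obtain ⟨N, hN1, hN2, hN3⟩ := num C hC (4 * (c / β) ^ (2 / (a + 2))) (by linarith)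
  refine ⟨N, hN1, ?_, ?_⟩
  · have hlog : 0 ≤ Real.log (2 + (N : ℝ)) := Real.log_nonneg (by
      have : (0 : ℝ) ≤ N := Nat.cast_nonneg N
      linarith)
    have h1 : (Real.log (2 + (N : ℝ))) ^ (a + 2) ≤ (4 * (c / β) ^ (2 / (a + 2))) ^ (a + 2) :=
      Real.rpow_le_rpow hlog hN2 ha2.le
    have hcb : 0 < c / β := by positivity
    have h2 : (4 * (c / β) ^ (2 / (a + 2))) ^ (a + 2) = (K * β ^ 2)⁻¹ := by
      have h3 : (c / β) ^ (2 / (a + 2)) = D / (β ^ (2 / (a + 2))) := by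
        rw [Real.div_rpow hc0.le hβ.le, hc, ← Real.rpow_mul hD.le]
        congr 1
        rw [show (a + 2) / 2 * (2 / (a + 2)) = 1 by field_simp]
        exact Real.rpow_one _
      rw [h3, hDdef, show 4 * (K ^ (-(1 / (a + 2))) / 4 / β ^ (2 / (a + 2))) =
        K ^ (-(1 / (a + 2))) / β ^ (2 / (a + 2)) by ring,
        Real.div_rpow (by positivity) (by positivity), ← Real.rpow_mul hK.le,
        ← Real.rpow_mul hβ.le, show -(1 / (a + 2)) * (a + 2) = -1 by field_simp,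
        show 2 / (a + 2) * (a + 2) = 2 by field_simp, Real.rpow_neg_one]
      rw [show β ^ (2 : ℝ) = β ^ 2 by norm_cast, mul_inv, div_eq_mul_inv]
    rw [h2] at h1
    have h4 : 0 < K * β ^ 2 := by positivity
    calc K * β ^ 2 * (Real.log (2 + (N : ℝ))) ^ (a + 2) ≤ K * β ^ 2 * (K * β ^ 2)⁻¹ :=
          mul_le_mul_of_nonneg_left h1 h4.le
      _ = 1 := mul_inv_cancel₀ h4.ne'
  · refine hN3.trans (le_of_eq ?_)
    congr 1
    ring

end Pool.Agent.P8H57.LP
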